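import Pool.Agent.TH130.CI.Fin2

/-!
Complete intersections of products of linear forms: the maps required by the strong Lefschetz
property have maximal rank in the lowest and highest `n / 8` degrees.
-/

open MvPolynomial

namespace Pool.Agent.Results.MP_53b7aa_ag.LinearRange

/-- Let `K` be a field of characteristic zero and `f_i = ∏_j L_ij` products of `a_i ≥ 2` linear
forms in `n` variables which form a regular sequence; `A = K[x_1, …, x_n] / (f_1, …, f_n)` has
socle degree `σ = ∑ (a_i - 1)`.  If `n ≥ 8 N` there is a linear form `ℓ` such that for all `i, k`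
the map `ℓ ^ k : A_i → A_{i+k}` is injective if `i + k ≤ N` and surjective if `i ≥ σ - N`. -/
theorem result (K : Type*) [Field K] [CharZero K] (n N : ℕ) (hn : 1 ≤ n)
    (f : Fin n → MvPolynomial (Fin n) K) (a : Fin n → ℕ) (ha : ∀ i, 2 ≤ a i)
    (L : (i : Fin n) → Fin (a i) → MvPolynomial (Fin n) K)
    (hL : ∀ i j, (L i j).IsHomogeneous 1) (hf : ∀ i, f i = ∏ j, L i j)
    (hreg : RingTheory.Sequence.IsRegular (MvPolynomial (Fin n) K) (List.ofFn f))
    (hN : 8 * N ≤ n) :
    ∃ ℓ : MvPolynomial (Fin n) K, ℓ.IsHomogeneous 1 ∧ ∀ i k : ℕ,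
      (i + k ≤ N → ∀ g ∈ homogeneousSubmodule (Fin n) K i,
        ℓ ^ k * g ∈ Ideal.span (Set.range f) → g ∈ Ideal.span (Set.range f)) ∧
      (∑ j, (a j - 1) ≤ i + N → ∀ h ∈ homogeneousSubmodule (Fin n) K (i + k),
        ∃ g ∈ homogeneousSubmodule (Fin n) K i,
          h - ℓ ^ k * g ∈ Ideal.span (Set.range f)) := by
  classical
  have hfh : ∀ i, (f i).IsHomogeneous (a i) := by
    intro i
    rw [hf i]
    have := IsHomogeneous.prod Finset.univ (L i) (fun _ => 1) (fun j _ => hL i j)
    simpa using this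
  refine TH130CI.red_main hn hfh (fun i => le_trans (by norm_num) (ha i))
    (H503R3.QCI.reg_of_isWeaklyRegular hreg.toIsWeaklyRegular) (R := Finset.univ) ?_
    (Or.inr ⟨rfl, hN⟩)
  intro i _
  let j0 : Fin (a i) := ⟨0, lt_of_lt_of_le (by norm_num) (ha i)⟩
  refine ⟨L i j0, ∏ j ∈ Finset.univ.erase j0, L i j, 1, a i - 1, le_rfl, ?_, hL i j0, ?_, ?_⟩
  · have := ha i; omega
  · have := IsHomogeneous.prod (Finset.univ.erase j0) (L i) (fun _ => 1) (fun j _ => hL i j)
    simpa [Finset.card_erase_of_mem (Finset.mem_univ j0)] using this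
  · rw [hf i, Finset.mul_prod_erase _ _ (Finset.mem_univ j0)]

end Pool.Agent.Results.MP_53b7aa_ag.LinearRange
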